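import Mathlib
import Pool.Agent.H2.TW.ChenF

/-!
# Narrow arithmetic progressions of Chen primes

Let `t > 0` be even and `k ≥ 1`. For large `N` a positive proportion `c N / (log N)^2` of the `n ≤ N` start a progression
`n, n + d, …, n + (k - 1) d`, `1 ≤ d ≤ (log N)^C`, of primes `p ≤ N` such that `p + t` is a prime or a product of two
primes and has no prime factor `≤ (p + t)^(1/8)`.
-/

set_option autoImplicit false

open Filter

namespace Pool.Agent.Results.MP_a1f59e_nt.NarrowChenPrimes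

theorem result :
    ∀ t : ℕ, Even t → 0 < t → ∀ k : ℕ, 1 ≤ k → ∃ (C : ℕ) (c : ℝ), 0 < c ∧
      ∀ᶠ N : ℕ in atTop, c * (N : ℝ) / Real.log N ^ 2 ≤
        (Set.ncard {n : ℕ | ∃ d : ℕ, 1 ≤ d ∧ (d : ℝ) ≤ Real.log N ^ C ∧ ∀ j < k,
          n + j * d ≤ N ∧ (n + j * d).Prime ∧
          ((n + j * d + t).Prime ∨ ∃ p q : ℕ, p.Prime ∧ q.Prime ∧ n + j * d + t = p * q) ∧
          ∀ q : ℕ, q.Prime → q ∣ n + j * d + t → n + j * d + t < q ^ 8} : ℝ) := by
  intro t ht ht0 k hk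
  obtain ⟨k', rfl⟩ : ∃ k', k = k' + 1 := ⟨k - 1, by omega⟩
  exact Pool.Agent.H2.TW.chen_narrow t ht ht0 k'

end Pool.Agent.Results.MP_a1f59e_nt.NarrowChenPrimes
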