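import Pool.Agent.H74.QT.Final

/-!
Narrow arithmetic progressions of pairs of consecutive primes with difference `t`, for one seventh of the even `t`.

`result` is the hand-in: there are `D` and `M₀` such that for every `l` there is `C` such that for every `M ≥ M₀` and all
large `x` at least `M / 14` of the (about `M / 2`) even integers `t ≤ M` have the following property: for at least
`x / (log x) ^ D` integers `a ≤ x` there is `1 ≤ b ≤ (log x) ^ C` such that for every `0 ≤ j < l` the numbers `a + j b` and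
`a + j b + t` are consecutive primes.

The other theorems of this file are not part of the hand-in; they show what the same proof gives:

* `density`: the even `t` for which, for every `l`, this holds (with some `C`) for arbitrarily large `x` have lower density at
  least `1 / 14`;
* `weighted_quarter`: a quarter of all integers `t ≤ M`, counted with the Hardy-Littlewood weight.
-/

set_option autoImplicit false

open Finset

namespace Pool.Agent.Results.MP_a1f59e_nt.QuarterTwins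

/-- `p` and `p + t` are consecutive primes, `t > 0`. -/
def Consecutive (p t : ℕ) : Prop :=
  0 < t ∧ p.Prime ∧ (p + t).Prime ∧ ∀ m, p < m → m < p + t → ¬ m.Prime

open Classical in
/-- The number of `a ≤ x` such that for some `1 ≤ b ≤ (log x) ^ C` the numbers `a + j b` and `a + j b + t` are consecutive
primes for all `0 ≤ j < l`. -/
noncomputable def starts (l C t : ℕ) (x : ℝ) : ℕ :=
  #{a ∈ Icc 1 ⌊x⌋₊ | ∃ b : ℕ, 1 ≤ b ∧ (b : ℝ) ≤ (Real.log x) ^ C ∧ ∀ j < l, Consecutive (a + j * b) t}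

open Classical in
theorem result : ∃ D M₀ : ℕ, ∀ l : ℕ, ∃ C : ℕ, ∀ M : ℕ, M₀ ≤ M → ∃ x₀ : ℝ, ∀ x : ℝ, x₀ ≤ x →
    (M : ℝ) / 14 ≤ (#{t ∈ Icc 1 M | Even t ∧ x / (Real.log x) ^ D ≤ starts l C t x} : ℝ) := by
  obtain ⟨D, M₀, h⟩ := Pool.Agent.H74.QT.seventh_x
  refine ⟨D, M₀, fun l => ?_⟩
  obtain ⟨C, hC⟩ := h l
  refine ⟨C, fun M hM => ?_⟩
  obtain ⟨x₀, hx₀⟩ := Filter.eventually_atTop.mp (hC M hM)
  exact ⟨x₀, hx₀⟩

open Classical in
/-- Not part of the hand-in. -/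
theorem density : ∃ D M₀ : ℕ, ∀ M : ℕ, M₀ ≤ M →
    (M : ℝ) / 14 ≤ (#{t ∈ Icc 1 M | Even t ∧ ∀ l : ℕ, ∃ C : ℕ, ∀ x₀ : ℝ, ∃ x : ℝ, x₀ ≤ x ∧
      x / (Real.log x) ^ D ≤ starts l C t x} : ℝ) := by
  obtain ⟨D, M₀, _, h⟩ := Pool.Agent.H74.QT.seventh_inf
  exact ⟨D, M₀, h⟩

/-- The number of residues `a` modulo `Q` such that `a` and `a + t` are coprime to `Q`. -/
def pc (Q t : ℕ) : ℕ := #{a ∈ range Q | Nat.Coprime a Q ∧ Nat.Coprime (a + t) Q}

open Classical in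
/-- Not part of the hand-in. -/
theorem weighted_quarter (ε : ℝ) (hε : 0 < ε) : ∃ D L : ℕ, ∀ Q : ℕ, 0 < Q →
    (∀ p : ℕ, p.Prime → p ≤ L → p ∣ Q) → ∃ M₀ : ℕ, ∀ l : ℕ, ∃ C : ℕ, ∀ M : ℕ, M₀ ≤ M →
    ∃ x₀ : ℝ, ∀ x : ℝ, x₀ ≤ x → (1 / 4 - ε) * ∑ t ∈ Icc 1 M, (pc Q t : ℝ) ≤
      ∑ t ∈ Icc 1 M with x / (Real.log x) ^ D ≤ starts l C t x, (pc Q t : ℝ) := by
  obtain ⟨D, L, h⟩ := Pool.Agent.H74.QT.quarter_x ε hε
  refine ⟨D, L, fun Q hQ hLQ => ?_⟩
  obtain ⟨M₀, hM₀⟩ := h Q hQ hLQ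
  refine ⟨M₀, fun l => ?_⟩
  obtain ⟨C, hC⟩ := hM₀ l
  refine ⟨C, fun M hM => ?_⟩
  obtain ⟨x₀, hx₀⟩ := Filter.eventually_atTop.mp (hC M hM)
  exact ⟨x₀, hx₀⟩

end Pool.Agent.Results.MP_a1f59e_nt.QuarterTwins
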