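import Mathlib
import Pool.Agent.H2.TW.SzF

/-!
# Szemerédi's theorem with narrow progressions for dense sets of rough tuples

Let `𝓗` be a nonempty finite set of shifts. Every set `S` of positive integers `n ≤ N` such that no `n + h`, `h ∈ 𝓗`, has a prime
factor `≤ N^η`, and which has at least `δ N / (log N)^|𝓗|` elements, contains progressions of length `k` with common
differences `1 ≤ d ≤ (log N)^C`, starting from at least `c N / (log N)^|𝓗|` elements of `S`.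
-/

set_option autoImplicit false

open Filter

namespace Pool.Agent.Results.MP_a1f59e_nt.RoughSzemeredi

theorem result :
    ∀ 𝓗 : Finset ℕ, 𝓗.Nonempty → ∀ (k : ℕ) (δ η : ℝ), 0 < δ → 0 < η →
      ∃ (C : ℕ) (c : ℝ), 0 < c ∧ ∀ᶠ N : ℕ in atTop, ∀ S : Finset ℕ,
        (∀ n ∈ S, 1 ≤ n ∧ n ≤ N ∧ ∀ h ∈ 𝓗, ∀ p : ℕ, p.Prime → p ∣ n + h → (N : ℝ) ^ η < p) →
        δ * ((N : ℝ) / Real.log N ^ (𝓗.card)) ≤ (S.card : ℝ) →
        c * ((N : ℝ) / Real.log N ^ (𝓗.card)) ≤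
          (Set.ncard {n : ℕ | n ∈ S ∧ ∃ d : ℕ, 1 ≤ d ∧ (d : ℝ) ≤ Real.log N ^ C ∧
            ∀ j < k, n + j * d ∈ S} : ℝ) := by
  intro 𝓗 h𝓗 k δ η hδ hη
  exact Pool.Agent.H2.TW.sz_nat 𝓗 h𝓗 k δ η hδ hη

end Pool.Agent.Results.MP_a1f59e_nt.RoughSzemeredi
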