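import Pool.Agent.H10.FF.Main

/-!
# Twin prime progressions of every finite shape in polynomial rings over large finite fields

Function field analogue of arithmetic progressions of twin primes: for every `m ≥ 2` there is `Q` such that over
every finite field `F` with at least `Q` elements, for every nonzero `h ∈ F[X]` there is a set `T` of at least `m`
constants containing `0` and `1` such that every finite set `S` of polynomials has arbitrarily large copies
`f + S g` with `f + c g + t h` irreducible for all `c ∈ S`, `t ∈ T`. With `0, 1 ∈ T` the polynomials `f + c g` and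
`f + c g + h` are both irreducible for all `c ∈ S`.

Proof: Maynard-Tao sieve over `F[X]` with a positive proportion of almost prime tuples (Pintz), a Bombieri-Vinogradov
theorem over `F[X]` proved from scratch, and the relative Szemeredi theorem of Conlon, Fox and Zhao for the sieve
majorant of the whole tuple.
-/

set_option autoImplicit false

open Polynomial

namespace Pool.Agent.Results.MP_a1f59e_nt.TwinShapes

theorem result (m : ℕ) (hm : 2 ≤ m) : ∃ Q : ℕ, ∀ (F : Type) [Field F] [Fintype F],
    Q ≤ Fintype.card F → ∀ h : F[X], h ≠ 0 →
    ∃ T : Finset F, m ≤ T.card ∧ (0 : F) ∈ T ∧ (1 : F) ∈ T ∧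
    ∀ (S : Finset F[X]) (N : ℕ), ∃ f g : F[X], g ≠ 0 ∧ N ≤ f.natDegree ∧ N ≤ g.natDegree ∧
      ∀ c ∈ S, (c * g).natDegree < f.natDegree ∧ ∀ t ∈ T, Irreducible (f + c * g + C t * h) :=
  Pool.Agent.H10.FF.main m hm

end Pool.Agent.Results.MP_a1f59e_nt.TwinShapes
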